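import Pool.Agent.R316.HN.Gen

set_option autoImplicit false

/-!
# The norms of disjoint closed subsets of the Lagrangian Grassmannian need not be independent

MP_080eaf_nt, Q1: negative answer, for every prime `p`, every `d ≥ 1` and every non-trivial smooth
character `ψ`.

`N` is the system of the norms `‖·‖_α`, `α ∈ X = P \ Sp`; its existence and uniqueness are part of
the theorem (the first condition on `N`).

`I₁` is the set of the classes `P g` whose lower blocks `C, D` satisfy `D = C diag(2 c m)` for some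
`m ∈ ℤ_p^d` (with `c` a constant depending on `ψ`) and `I₂` is the one point set of the class of `1`;
the seminorm is `f ↦ |f(0)|`. The norm of `I₁` bounds all `|∫ f(x) ψ(∑ c m_j x_j² + y·x) dx|` with
`m ∈ ℤ_p^d`, hence also the same integrals with `ψ` replaced by the products of the functions
`ψ(c (x_j - a)²) - 1` over the `a ∈ ℚ_p / ℤ_p` with `1 < |a| ≤ p^M`; such a product vanishes for
`1 < |x_j| ≤ p^M`, and its value at `0` has absolute value at least `p⁻¹`, uniformly in `M`.
-/

namespace Pool.Agent.Results.MP_080eaf_nt.NotIndependent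

open Pool.Agent.R316.HN

theorem result (p : ℕ) [Fact p.Prime] (d : ℕ) (hd : 1 ≤ d) (ψ : AddChar ℚ_[p] ℂ_[p])
    (hψ : IsLocallyConstant ψ) (hne : ψ ≠ 1) :
    ∃ N : X p d → S p d → ℝ,
      (∀ N' : X p d → S p d → ℝ, (∀ g : Sp p d, IsNormAt ψ hψ g (N' (cl g))) ↔ N' = N) ∧
      (∀ (I : Set (X p d)) (f : S p d), normOn N I f ≠ ⊤) ∧
      ∃ I₁ I₂ : Set (X p d), I₁.Nonempty ∧ I₂.Nonempty ∧ IsClosed I₁ ∧ IsClosed I₂ ∧
        I₁ ∩ I₂ = ∅ ∧ ∃ s : S p d → ℝ, IsSeminorm s ∧ s ≠ 0 ∧
          Dominated s (normOn N I₁) ∧ Dominated s (normOn N I₂) := by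
  obtain ⟨c, hc0, hc⟩ := exists_std hψ hne
  obtain ⟨N, hN, hu⟩ := existsUnique_N (hψ := hψ) (d := d) hc0 hc
  exact ⟨N, fun N' => ⟨fun h => hu N' h, fun h => h ▸ hN⟩, main p d hd ψ hψ hne N hN⟩

end Pool.Agent.Results.MP_080eaf_nt.NotIndependent
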